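import Pool.Agent.helper27.PC2.Stmt2
import Pool.Agent.helper27.PC.RR
import Pool.Agent.helper31.PC.CH

/-!
# PC project, second half: module `AAD` (type `D`, only positive cycles, some cycle of length at least `2`)
-/

namespace Pool.Agent.helper27.PC

open Module Finset Polynomial

/-! ## Exchange of the components -/

theorem AAD_ff (l : Lab) : flipL (flipL l) = l := by
  rcases l with ⟨b, p⟩
  simp [flipL]

theorem AAD_inj : Function.Injective flipL := fun a b h => by
  rw [← AAD_ff a, h, AAD_ff]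

theorem AAD_mm (w : List Lab) : (w.map flipL).map flipL = w := by
  rw [List.map_map]
  conv_rhs => rw [← List.map_id w]
  apply List.map_congr_left
  intro a _
  exact AAD_ff a

theorem AAD_minj : Function.Injective (List.map flipL) := fun a b h => by
  rw [← AAD_mm a, h, AAD_mm]

theorem AAD_mem_flip {S : St} {l : Lab} : l ∈ flip S ↔ flipL l ∈ S := by
  unfold flip
  rw [mem_image]
  constructor
  · rintro ⟨a, ha, rfl⟩
    rwa [AAD_ff]
  · intro h
    exact ⟨flipL l, h, AAD_ff l⟩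

theorem AAD_flip_flip (S : St) : flip (flip S) = S := by
  ext l
  rw [AAD_mem_flip, AAD_mem_flip, AAD_ff]

theorem AAD_flip_move (S : St) (l : Lab) : flip (move 1 S l) = move 1 (flip S) (flipL l) := by
  ext y
  rw [AAD_mem_flip, mem_move, mem_move, AAD_mem_flip]
  have h1 : flipL y = up 1 l ↔ y = up 1 (flipL l) := by
    constructor
    · intro h
      rw [← AAD_ff y, h]
      rfl
    · rintro rfl
      show flipL (up 1 (flipL l)) = up 1 l
      have : up 1 (flipL l) = flipL (up 1 l) := rfl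
      rw [this, AAD_ff]
  have h2 : flipL y ≠ l ↔ y ≠ flipL l := by
    rw [not_iff_not]
    constructor
    · intro h
      rw [← h, AAD_ff]
    · rintro rfl
      exact AAD_ff l
  rw [h1, h2]

theorem AAD_addable {S : St} {l : Lab} (h : l ∈ addable 1 S) : flipL l ∈ addable 1 (flip S) := by
  rw [mem_addable] at h ⊢
  have h1 : up 1 (flipL l) = flipL (up 1 l) := rfl
  rw [h1, AAD_mem_flip, AAD_mem_flip, AAD_ff, AAD_ff]
  exact h

theorem AAD_paths {n : ℕ} {S S' : St} {w : List Lab} (h : w ∈ paths n S S') :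
    w.map flipL ∈ paths n (flip S) (flip S') := by
  induction n generalizing S w with
  | zero =>
    rw [mem_paths_zero] at h ⊢
    rw [h.1, h.2]
    exact ⟨rfl, rfl⟩
  | succ n ih =>
    rw [mem_paths_succ] at h
    obtain ⟨l, z, rfl, hl, hz⟩ := h
    rw [List.map_cons, mem_paths_cons, ← AAD_flip_move]
    exact ⟨AAD_addable hl, ih hz⟩

theorem AAD_vac (n : ℕ) : flip (vac n) = vac n := by
  ext l
  rw [AAD_mem_flip]
  simp [vac, flipL]

/-! ## Operators commuting with the exchange -/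

section comm

variable {K : Type*} [Field K] {v : K} {x : Lab → K}

/-- the exchange of the components on words -/
noncomputable def AAD_J (K : Type*) [Field K] : Module.End K (List Lab →₀ K) :=
  Finsupp.lmapDomain K K (List.map flipL)

theorem AAD_cA (hx : ∀ l, x (flipL l) = - x l) (a b : Lab) :
    cA v x (flipL a) (flipL b) = cA v x a b := by
  unfold cA
  rw [hx, hx, neg_div_neg_eq]

theorem AAD_cB (hx : ∀ l, x (flipL l) = - x l) (a b : Lab) :
    cB v x (flipL a) (flipL b) = cB v x a b := by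
  unfold cB
  have : (flipL b = up 1 (flipL a)) ↔ (b = up 1 a) :=
    ⟨fun h => AAD_inj h, fun h => by rw [h]; rfl⟩
  rw [AAD_cA hx]
  by_cases h : b = up 1 a
  · rw [if_pos h, if_pos (this.2 h)]
  · rw [if_neg h, if_neg (fun h' => h (this.1 h'))]

theorem AAD_tw (hx : ∀ l, x (flipL l) = - x l) (i : ℕ) (w : List Lab) :
    tw v x i (w.map flipL) = Finsupp.mapDomain (List.map flipL) (tw v x i w) := by
  induction i generalizing w with
  | zero =>
    match w with
    | [] => simp [tw]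
    | [a] => simp [tw]
    | a :: b :: z =>
      simp only [List.map_cons, tw]
      rw [Finsupp.mapDomain_add, Finsupp.mapDomain_single, Finsupp.mapDomain_single, AAD_cA hx,
        AAD_cB hx]
      rfl
  | succ i ih =>
    match w with
    | [] => simp [tw]
    | a :: z =>
      simp only [List.map_cons, tw]
      rw [ih, ← Finsupp.mapDomain_comp, ← Finsupp.mapDomain_comp]
      rfl

theorem AAD_Top (hx : ∀ l, x (flipL l) = - x l) (i : ℕ) : Commute (Top v x i) (AAD_J K) := by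
  unfold Commute SemiconjBy
  apply Finsupp.lhom_ext
  intro w c
  rw [Module.End.mul_apply, Module.End.mul_apply]
  unfold AAD_J Top
  rw [Finsupp.lmapDomain_apply, Finsupp.mapDomain_single, Finsupp.linearCombination_single,
    Finsupp.linearCombination_single, map_smul, AAD_tw hx]
  rfl

end comm

theorem AAD_x {K : Type*} [Field K] (v : K) (m : ℕ) (l : Lab) :
    xQ 1 v m (flipL l) = - xQ 1 v m l := by
  rcases l with ⟨b, p⟩
  cases b <;> simp [xQ, flipL]

theorem AAD_xok {K : Type*} [Field K] {v : K} (hv : Generic v) (m : ℕ) : XOK v (xQ 1 v m) := by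
  obtain ⟨h0, h1, h2⟩ := hv
  have h1' : ∀ k : ℤ, v ^ k ≠ -1 := h1
  have hz : ∀ k : ℤ, v ^ k ≠ 0 := fun k => zpow_ne_zero _ h0
  refine ⟨h0, ?_, ?_, ?_, ?_, ?_⟩
  · have := h2 2 (by norm_num)
    simpa using this
  · have := h1 2
    simpa using this
  · intro l
    unfold xQ
    refine mul_ne_zero ?_ (zpow_ne_zero _ h0)
    split_ifs <;> simp
  · rintro ⟨b, p⟩ ⟨b', p'⟩ h
    unfold xQ at h
    have same : v ^ (2 * ((p : ℤ) + 1 - m)) = v ^ (2 * ((p' : ℤ) + 1 - m)) → p = p' := by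
      intro h3
      by_contra hne
      apply h2 (2 * ((p : ℤ) + 1 - m) - 2 * ((p' : ℤ) + 1 - m)) (by omega)
      rw [zpow_sub₀ h0, h3, div_self (hz _)]
    have diff : ∀ p p' : ℕ, v ^ (2 * ((p : ℤ) + 1 - m)) ≠ - v ^ (2 * ((p' : ℤ) + 1 - m)) := by
      intro p p' h
      apply h1 (2 * ((p : ℤ) + 1 - m) - 2 * ((p' : ℤ) + 1 - m))
      rw [zpow_sub₀ h0, h, neg_div, div_self (hz _)]
    cases b <;> cases b' <;>
      simp only [Bool.false_eq_true, if_true, if_false, inv_one, one_mul, neg_mul, neg_inj] at h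
    · rw [same h]
    · exact absurd h.symm (diff _ _)
    · exact absurd h (diff _ _)
    · rw [same h]
  · intro l
    unfold xQ up
    simp only
    have : (2 * (((l.2 + 1 : ℕ) : ℤ) + 1 - m)) = 2 * ((l.2 : ℤ) + 1 - m) + 2 := by push_cast; ring
    rw [this, zpow_add₀ h0]
    have h4 : v ^ (2 : ℤ) = v ^ 2 := by norm_cast
    rw [h4]; ring

/-! ## Folding matrices -/

section fold

variable {K : Type*} [Field K] {I : Type*} [Fintype I] [DecidableEq I] (e : I → I) (χ : I → Bool)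

/-- folded matrix -/
def AAD_R (ε : K) (M : Matrix I I K) : Matrix {i : I // χ i = true} {i : I // χ i = true} K :=
  fun i j => M i j + ε * M i (e j)

omit [DecidableEq I] in
theorem AAD_sum (he : ∀ i, e (e i) = i) (hχ : ∀ i, χ (e i) = !χ i) (g : I → K) :
    ∑ i, g i = ∑ i : {i : I // χ i = true}, (g i + g (e i)) := by
  rw [← Finset.sum_filter_add_sum_filter_not univ (fun i => χ i = true)]
  have h1 : ∑ i ∈ univ.filter (fun i => ¬ χ i = true), g i =
      ∑ i ∈ univ.filter (fun i => χ i = true), g (e i) := by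
    refine Finset.sum_nbij' e e ?_ ?_ ?_ ?_ ?_
    · intro i hi
      rw [mem_filter] at hi ⊢
      refine ⟨mem_univ _, ?_⟩
      rw [hχ]
      simpa using hi.2
    · intro i hi
      rw [mem_filter] at hi ⊢
      refine ⟨mem_univ _, ?_⟩
      rw [hχ, hi.2]
      simp
    · intro i _; exact he i
    · intro i _; exact he i
    · intro i _; rw [he]
  rw [h1, ← Finset.sum_add_distrib]
  exact Finset.sum_subtype _ (by simp) _

omit [DecidableEq I] in
theorem AAD_R_mul (he : ∀ i, e (e i) = i) (hχ : ∀ i, χ (e i) = !χ i) {ε : K} (hε : ε * ε = 1)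
    (M N : Matrix I I K) (hN : ∀ i j, N (e i) (e j) = N i j) :
    AAD_R e χ ε (M * N) = AAD_R e χ ε M * AAD_R e χ ε N := by
  ext i j
  rw [Matrix.mul_apply]
  unfold AAD_R
  rw [Matrix.mul_apply, Matrix.mul_apply, AAD_sum e χ he hχ, AAD_sum e χ he hχ, Finset.mul_sum,
    ← Finset.sum_add_distrib]
  apply Finset.sum_congr rfl
  intro k _
  have h1 : N (e k) j = N k (e j) := by
    have := hN k (e j)
    rwa [he] at this
  rw [h1, hN]
  linear_combination (- (M i (e k) * N k (e j))) * hε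

omit [Fintype I] in
theorem AAD_R_one (hχ : ∀ i, χ (e i) = !χ i) (ε : K) :
    AAD_R e χ ε (1 : Matrix I I K) = 1 := by
  ext i j
  unfold AAD_R
  have h1 : (i : I) ≠ e j := by
    intro h
    have h2 := i.2
    rw [h, hχ, j.2] at h2
    simp at h2
  rw [Matrix.one_apply_ne h1, mul_zero, add_zero]
  rw [Matrix.one_apply, Matrix.one_apply]
  congr 1
  rw [Subtype.ext_iff]

omit [Fintype I] [DecidableEq I] in
theorem AAD_R_add (ε : K) (M N : Matrix I I K) :
    AAD_R e χ ε (M + N) = AAD_R e χ ε M + AAD_R e χ ε N := by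
  ext i j
  simp only [AAD_R, Matrix.add_apply]
  ring

omit [Fintype I] [DecidableEq I] in
theorem AAD_R_smul (ε c : K) (M : Matrix I I K) :
    AAD_R e χ ε (c • M) = c • AAD_R e χ ε M := by
  ext i j
  simp only [AAD_R, Matrix.smul_apply, smul_eq_mul]
  ring

omit [DecidableEq I] in
theorem AAD_tr1 (he : ∀ i, e (e i) = i) (hχ : ∀ i, χ (e i) = !χ i) (M : Matrix I I K)
    (hM : ∀ i j, M (e i) (e j) = M i j) :
    ∑ i, M i i = Matrix.trace (AAD_R e χ 1 M) + Matrix.trace (AAD_R e χ (-1) M) := by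
  rw [AAD_sum e χ he hχ]
  unfold Matrix.trace
  rw [← Finset.sum_add_distrib]
  apply Finset.sum_congr rfl
  intro i _
  simp only [Matrix.diag, AAD_R, hM]
  ring

omit [DecidableEq I] in
theorem AAD_tr2 (he : ∀ i, e (e i) = i) (hχ : ∀ i, χ (e i) = !χ i) (M : Matrix I I K)
    (hM : ∀ i j, M (e i) (e j) = M i j) :
    ∑ i, M i (e i) = Matrix.trace (AAD_R e χ 1 M) - Matrix.trace (AAD_R e χ (-1) M) := by
  rw [AAD_sum e χ he hχ]
  unfold Matrix.trace
  rw [← Finset.sum_sub_distrib]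
  apply Finset.sum_congr rfl
  intro i _
  simp only [Matrix.diag, AAD_R, hM]
  ring

end fold

/-! ## The folded representations -/

section rep

variable {K : Type} [Field K] {v : K}

/-- operators that commute with the exchange have invariant matrix elements -/
theorem AAD_inv {φ : Module.End K (List Lab →₀ K)} (h : Commute φ (AAD_J K)) (w u : List Lab) :
    φ (Finsupp.single (w.map flipL) 1) (u.map flipL) = φ (Finsupp.single w 1) u := by
  have h1 : (AAD_J K) (Finsupp.single w 1) = Finsupp.single (w.map flipL) 1 := by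
    unfold AAD_J
    rw [Finsupp.lmapDomain_apply, Finsupp.mapDomain_single]
  have h2 := LinearMap.congr_fun h.eq (Finsupp.single w 1)
  rw [Module.End.mul_apply, Module.End.mul_apply, h1] at h2
  rw [h2]
  unfold AAD_J
  rw [Finsupp.lmapDomain_apply, Finsupp.mapDomain_apply AAD_minj]

/-- the exchange on the words from the vacuum to a symmetric state -/
def AAD_e {n : ℕ} {S : St} (hS : flip S = S) (w : paths n (vac n) S) : paths n (vac n) S :=
  ⟨w.1.map flipL, by
    have h := AAD_paths w.2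
    rwa [AAD_vac, hS] at h⟩

/-- component of the first letter -/
def AAD_c {n : ℕ} {S : St} (w : paths n (vac n) S) : Bool := (w.1.head?).elim true Prod.fst

theorem AAD_ee {n : ℕ} {S : St} (hS : flip S = S) (w : paths n (vac n) S) :
    AAD_e hS (AAD_e hS w) = w := Subtype.ext (AAD_mm w.1)

theorem AAD_ce {n : ℕ} {S : St} (hn : 1 ≤ n) (hS : flip S = S) (w : paths n (vac n) S) :
    AAD_c (AAD_e hS w) = !AAD_c w := by
  obtain ⟨w, hw⟩ := w
  have hl := length_of_mem_paths hw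
  match w, hl with
  | [], hl => simp at hl; omega
  | a :: z, _ => simp [AAD_c, AAD_e, flipL]

/-- the folded matrix of an operator -/
noncomputable def AAD_M (n : ℕ) {S : St} (hS : flip S = S) (ε : K)
    (φ : Module.End K (List Lab →₀ K)) :
    Matrix {w : paths n (vac n) S // AAD_c w = true} {w : paths n (vac n) S // AAD_c w = true} K :=
  AAD_R (AAD_e hS) AAD_c ε (matF (paths n (vac n) S) φ)

theorem AAD_minv {n : ℕ} {S : St} (hS : flip S = S) {φ : Module.End K (List Lab →₀ K)}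
    (h : Commute φ (AAD_J K)) (w u : paths n (vac n) S) :
    matF (paths n (vac n) S) φ (AAD_e hS w) (AAD_e hS u) = matF (paths n (vac n) S) φ w u :=
  AAD_inv h u.1 w.1

theorem AAD_M_mul {n : ℕ} {S : St} (hn : 1 ≤ n) (hS : flip S = S) {ε : K} (hε : ε * ε = 1)
    {φ ψ : Module.End K (List Lab →₀ K)} (h1 : Stab (paths n (vac n) S) ψ)
    (h2 : Commute ψ (AAD_J K)) : AAD_M n hS ε (φ * ψ) = AAD_M n hS ε φ * AAD_M n hS ε ψ := by
  unfold AAD_M
  rw [matF_mul h1, AAD_R_mul _ _ (AAD_ee hS) (AAD_ce hn hS) hε _ _ (AAD_minv hS h2)]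

theorem AAD_M_one {n : ℕ} {S : St} (hn : 1 ≤ n) (hS : flip S = S) (ε : K) :
    AAD_M n hS ε (1 : Module.End K (List Lab →₀ K)) = 1 := by
  unfold AAD_M
  rw [matF_one, AAD_R_one _ _ (AAD_ce hn hS)]

theorem AAD_M_add {n : ℕ} {S : St} (hS : flip S = S) (ε : K) (φ ψ : Module.End K (List Lab →₀ K)) :
    AAD_M n hS ε (φ + ψ) = AAD_M n hS ε φ + AAD_M n hS ε ψ := by
  unfold AAD_M
  rw [matF_add, AAD_R_add]

theorem AAD_M_smul {n : ℕ} {S : St} (hS : flip S = S) (ε c : K) (φ : Module.End K (List Lab →₀ K)) :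
    AAD_M n hS ε (c • φ) = c • AAD_M n hS ε φ := by
  unfold AAD_M
  rw [matF_smul, AAD_R_smul]

theorem AAD_M_congr {n : ℕ} {S : St} (hS : flip S = S) (ε : K) {φ ψ : Module.End K (List Lab →₀ K)}
    (h : ∀ w ∈ paths n (vac n) S, φ (Finsupp.single w 1) = ψ (Finsupp.single w 1)) :
    AAD_M n hS ε φ = AAD_M n hS ε ψ := by
  unfold AAD_M
  rw [matF_congr h]

theorem AAD_T_stab (hv : Generic v) (n : ℕ) (S : St) (i : ℕ) :
    Stab (paths n (vac n) S) (Top v (xQ 1 v n) i) := Stab_Top (AAD_xok hv n) n _ S i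

theorem AAD_T_comm (n i : ℕ) : Commute (Top v (xQ 1 v n) i) (AAD_J K) :=
  AAD_Top (AAD_x v n) i

/-- the matrices of the generators -/
noncomputable def AAD_t (n : ℕ) {S : St} (hS : flip S = S) (v ε : K) (i : ℕ) :
    Module.End K ({w : paths n (vac n) S // AAD_c w = true} → K) :=
  Matrix.toLinAlgEquiv' (AAD_M n hS ε (opQ 1 v n i))

theorem AAD_rel (hv : Generic v) {n : ℕ} {S : St} (hn : 1 ≤ n) (hS : flip S = S) {ε : K}
    (hε : ε * ε = 1) : RelA (v - v⁻¹) n (AAD_t n hS v ε) := by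
  have hx := AAD_xok hv n
  have st := AAD_T_stab hv n S
  have cm := AAD_T_comm (v := v) n
  have mul : ∀ (φ : Module.End K (List Lab →₀ K)) i,
      AAD_M n hS ε (φ * Top v (xQ 1 v n) i) = AAD_M n hS ε φ * AAD_M n hS ε (Top v (xQ 1 v n) i) :=
    fun φ i => AAD_M_mul hn hS hε (st i) (cm i)
  have len : ∀ w ∈ paths n (vac n) S, w.length = n := fun w hw => length_of_mem_paths hw
  constructor
  · intro i h1 hi
    obtain ⟨i, rfl⟩ : ∃ j, i = j + 1 := ⟨i - 1, by omega⟩
    unfold AAD_t opQ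
    rw [← map_mul, ← mul, ← map_smul, ← map_one Matrix.toLinAlgEquiv', ← map_add,
      ← AAD_M_one hn hS ε, ← AAD_M_smul, ← AAD_M_add]
    congr 1
    apply AAD_M_congr
    intro w hw
    have hl := len w hw
    obtain ⟨p, a, b, z, rfl, hp⟩ := exists_split₂ (i := i) (w := w) (by omega)
    exact quad_word hx hp (mem_split₂ hw).1
  · intro i h1 hi
    obtain ⟨i, rfl⟩ : ∃ j, i = j + 1 := ⟨i - 1, by omega⟩
    unfold AAD_t opQ
    rw [← map_mul, ← map_mul, ← mul, ← mul, ← map_mul, ← map_mul, ← mul, ← mul]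
    congr 1
    apply AAD_M_congr
    intro w hw
    have hl := len w hw
    obtain ⟨p, a, b, c, z, rfl, hp⟩ := exists_split₃ (i := i) (w := w) (by omega)
    obtain ⟨h1, h2, h3⟩ := mem_split₃ hw
    exact braid_word hx hp h1 h2 h3
  · intro i j h1 hij hj
    obtain ⟨i, rfl⟩ : ∃ k, i = k + 1 := ⟨i - 1, by omega⟩
    obtain ⟨j, rfl⟩ : ∃ k, j = k + 1 := ⟨j - 1, by omega⟩
    unfold AAD_t opQ
    rw [← map_mul, ← map_mul, ← mul, ← mul]
    congr 1
    apply AAD_M_congr
    intro w hw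
    have hl := len w hw
    exact comm_word (by omega) (by omega)

theorem AAD_word (hv : Generic v) {n : ℕ} {S : St} (hn : 1 ≤ n) (hS : flip S = S) {ε : K}
    (hε : ε * ε = 1) (l : List ℕ) (hl : ∀ i ∈ l, 1 ≤ i) :
    Stab (paths n (vac n) S) (opWQ 1 v n l) ∧ Commute (opWQ 1 v n l) (AAD_J K) ∧
    Matrix.toLinAlgEquiv' (AAD_M n hS ε (opWQ 1 v n l)) = (l.map (AAD_t n hS v ε)).prod := by
  induction l with
  | nil =>
    refine ⟨Stab.one _, Commute.one_left _, ?_⟩
    show Matrix.toLinAlgEquiv' (AAD_M n hS ε 1) = _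
    rw [AAD_M_one hn hS, map_one]
    rfl
  | cons i l ih =>
    obtain ⟨h1, h2, h3⟩ := ih fun j hj => hl j (List.mem_cons_of_mem _ hj)
    have hi := hl i (by simp)
    obtain ⟨i, rfl⟩ : ∃ k, i = k + 1 := ⟨i - 1, by omega⟩
    have e : opWQ 1 v n ((i + 1) :: l) = Top v (xQ 1 v n) i * opWQ 1 v n l := by
      unfold opWQ
      rw [List.map_cons, List.prod_cons]
      rfl
    rw [e]
    refine ⟨(AAD_T_stab hv n S i).mul h1, (AAD_T_comm n i).mul_left h2, ?_⟩
    rw [AAD_M_mul hn hS hε h1 h2, map_mul, h3, List.map_cons, List.prod_cons]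
    rfl

theorem AAD_trP {n : ℕ} {S : St} (hn : 1 ≤ n) (hS : flip S = S)
    {φ : Module.End K (List Lab →₀ K)} (h : Commute φ (AAD_J K)) :
    trP n (vac n) S φ = LinearMap.trace K _ (Matrix.toLinAlgEquiv' (AAD_M n hS 1 φ)) +
      LinearMap.trace K _ (Matrix.toLinAlgEquiv' (AAD_M n hS (-1) φ)) := by
  have e : ∀ M : Matrix {w : paths n (vac n) S // AAD_c w = true}
      {w : paths n (vac n) S // AAD_c w = true} K,
      LinearMap.trace K _ (Matrix.toLinAlgEquiv' M) = Matrix.trace M := fun M =>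
    Matrix.trace_toLin'_eq M
  rw [e, e, trP_eq, trF_eq]
  exact AAD_tr1 _ _ (AAD_ee hS) (AAD_ce hn hS) _ (AAD_minv hS h)

theorem AAD_trJ {n : ℕ} {S : St} (hn : 1 ≤ n) (hS : flip S = S)
    {φ : Module.End K (List Lab →₀ K)} (h : Commute φ (AAD_J K)) :
    trJ n (vac n) S φ = LinearMap.trace K _ (Matrix.toLinAlgEquiv' (AAD_M n hS 1 φ)) -
      LinearMap.trace K _ (Matrix.toLinAlgEquiv' (AAD_M n hS (-1) φ)) := by
  have e : ∀ M : Matrix {w : paths n (vac n) S // AAD_c w = true}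
      {w : paths n (vac n) S // AAD_c w = true} K,
      LinearMap.trace K _ (Matrix.toLinAlgEquiv' M) = Matrix.trace M := fun M =>
    Matrix.trace_toLin'_eq M
  rw [e, e]
  unfold AAD_M
  rw [← AAD_tr2 _ _ (AAD_ee hS) (AAD_ce hn hS) _ (AAD_minv hS h)]
  unfold trJ
  rw [← Finset.sum_coe_sort (paths n (vac n) S)]
  rfl

end rep

/-! ## Words and polynomials -/

theorem AAD_pos (k : ℕ) (α : List ℕ) : ∀ i ∈ posWord k α, 1 ≤ i := by
  induction α generalizing k with
  | nil => simp [posWord]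
  | cons a l ih =>
    intro i hi
    rw [posWord, List.mem_append] at hi
    rcases hi with hi | hi
    · rw [List.mem_range'_1] at hi
      omega
    · exact ih _ i hi

theorem AAD_len (k : ℕ) (α : List ℕ) (h : ∀ a ∈ α, 1 ≤ a) :
    (posWord k α).length + α.length = α.sum := by
  induction α generalizing k with
  | nil => simp [posWord]
  | cons a l ih =>
    have h1 := ih (k + a) fun b hb => h b (List.mem_cons_of_mem _ hb)
    have h2 := h a (by simp)
    rw [posWord, List.length_append, List.length_range', List.length_cons, List.sum_cons]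
    omega

theorem AAD_lenT (α : List ℕ) (h : ∀ a ∈ α, 1 ≤ a) :
    lenT false (word2 [] α) = α.sum - α.length := by
  have e : word2 [] α = posWord 0 α := by simp [word2, stdWord]
  rw [e]
  unfold lenT
  rw [List.filter_eq_self.2]
  · have := AAD_len 0 α h
    omega
  · intro i hi
    have := AAD_pos 0 α i hi
    simp
    omega

/-- sign pattern -/
def AAD_sg (L : ℕ) (p : ℤ[X]) : Prop := 0 ≤ (-1) ^ L * p.coeff 0 ∧ (-1) ^ L * p.coeff 1 ≤ 0

theorem AAD_sg_mul {L : ℕ} {p : ℤ[X]} (h : AAD_sg L p) : p.coeff 0 * p.coeff 1 ≤ 0 := by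
  obtain ⟨h1, h2⟩ := h
  rcases neg_one_pow_eq_or ℤ L with h3 | h3 <;> rw [h3] at h1 h2 <;> nlinarith

theorem AAD_sq (p : ℤ[X]) : (p ^ 2).coeff 1 = 2 * (p.coeff 0 * p.coeff 1) := by
  rw [pow_two, Polynomial.mul_coeff_one]
  ring

theorem AAD_pm {L : ℕ} {p p' : ℤ[X]} (h : AAD_sg L p) (h' : AAD_sg L p') :
    ((p + p') ^ 2).coeff 1 + ((p - p') ^ 2).coeff 1 ≤ 0 := by
  have h1 := AAD_sg_mul h
  have h2 := AAD_sg_mul h'
  rw [AAD_sq, AAD_sq]
  simp only [Polynomial.coeff_add, Polynomial.coeff_sub]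
  nlinarith

section final

variable {K : Type} [Field K] [CharZero K] {v : K}

theorem AAD_symm (hHK : HK_stmt) (hv : Generic v) {n : ℕ} (hn : 1 ≤ n) {α : List ℕ}
    (hα : ∀ a ∈ α, 1 ≤ a) (hs : α.sum ≤ n) {S : St} (hS : flip S = S) :
    ∃ f h : ℤ[X],
      v ^ (α.sum - α.length) * trP n (vac n) S (opWQ 1 v n (posWord 0 α)) =
        f.eval₂ (Int.castRingHom K) (v ^ 2) ∧
      v ^ (α.sum - α.length) * trP n (vac n) S (opWQ 1 v n (posWord 0 α).reverse) =
        f.eval₂ (Int.castRingHom K) (v ^ 2) ∧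
      v ^ (α.sum - α.length) * trJ n (vac n) S (opWQ 1 v n (posWord 0 α)) =
        h.eval₂ (Int.castRingHom K) (v ^ 2) ∧
      v ^ (α.sum - α.length) * trJ n (vac n) S (opWQ 1 v n (posWord 0 α).reverse) =
        h.eval₂ (Int.castRingHom K) (v ^ 2) ∧
      (f ^ 2).coeff 1 + (h ^ 2).coeff 1 ≤ 0 := by
  have e1 : (1 : K) * 1 = 1 := one_mul 1
  have e2 : (-1 : K) * (-1) = 1 := by ring
  have l1 := AAD_pos 0 α
  have l2 : ∀ i ∈ (posWord 0 α).reverse, 1 ≤ i := fun i hi => l1 i (List.mem_reverse.1 hi)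
  obtain ⟨p, a1, a2, a3, a4⟩ := hHK K v hv ({w : paths n (vac n) S // AAD_c w = true} → K) n
    (AAD_t n hS v 1) (AAD_rel hv hn hS e1) α hα hs
  obtain ⟨p', b1, b2, b3, b4⟩ := hHK K v hv ({w : paths n (vac n) S // AAD_c w = true} → K) n
    (AAD_t n hS v (-1)) (AAD_rel hv hn hS e2) α hα hs
  obtain ⟨-, c1, c2⟩ := AAD_word hv hn hS e1 _ l1
  obtain ⟨-, -, c3⟩ := AAD_word hv hn hS e2 _ l1
  obtain ⟨-, d1, d2⟩ := AAD_word hv hn hS e1 _ l2
  obtain ⟨-, -, d3⟩ := AAD_word hv hn hS e2 _ l2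
  refine ⟨p + p', p - p', ?_, ?_, ?_, ?_, AAD_pm ⟨a3, a4⟩ ⟨b3, b4⟩⟩
  · rw [AAD_trP hn hS c1, c2, c3, mul_add, a1, b1, eval₂_add]
  · rw [AAD_trP hn hS d1, d2, d3, mul_add, a2, b2, eval₂_add]
  · rw [AAD_trJ hn hS c1, c2, c3, mul_sub, a1, b1, eval₂_sub]
  · rw [AAD_trJ hn hS d1, d2, d3, mul_sub, a2, b2, eval₂_sub]

end final

theorem AAD_col (n : ℕ) : col n 0 0 = vac n := by
  ext ⟨b, p⟩
  cases b <;> simp [col, vac] <;> omega

theorem AAD_ne {n : ℕ} (hn : 3 ≤ n) : flip (col n 1 (n - 1)) ≠ col n 1 (n - 1) := by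
  intro h
  have h1 : ((true, 1) : Lab) ∈ col n 1 (n - 1) := by
    simp [col]
    omega
  rw [← h, AAD_mem_flip] at h1
  simp [col, flipL] at h1
  omega

/-- module `AAD` -/
theorem AAD (hHK : HK_stmt) (hHKP : HKP_stmt) (hSP : SP_stmt) : AAD_stmt := by
  intro K _ _ v hv hinj n α hn hT ha
  obtain ⟨-, -, hα, hs⟩ := hT
  rw [List.sum_nil, zero_add] at hs
  have e : word2 [] α = posWord 0 α := by simp [word2, stdWord]
  rw [AAD_lenT α hα, e]
  have vm : vac n ∈ ends 0 (vac n) := by simp [ends]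
  have key : ∀ S, ∃ f h : ℤ[X],
      (v ^ (α.sum - α.length) * trP n (vac n) S (opWQ 1 v n (posWord 0 α)) =
        f.eval₂ (Int.castRingHom K) (v ^ 2) ∧
      v ^ (α.sum - α.length) * trP n (vac n) S (opWQ 1 v n (posWord 0 α).reverse) =
        f.eval₂ (Int.castRingHom K) (v ^ 2)) ∧
      (flip S = S → v ^ (α.sum - α.length) * trJ n (vac n) S (opWQ 1 v n (posWord 0 α)) =
        h.eval₂ (Int.castRingHom K) (v ^ 2) ∧
      v ^ (α.sum - α.length) * trJ n (vac n) S (opWQ 1 v n (posWord 0 α).reverse) =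
        h.eval₂ (Int.castRingHom K) (v ^ 2)) ∧
      (f ^ 2).coeff 1 + (if flip S = S then (h ^ 2).coeff 1 else 0) ≤ 0 := by
    intro S
    by_cases hS : flip S = S
    · obtain ⟨f, h, h1, h2, h3, h4, h5⟩ := AAD_symm hHK hv (by omega) hα hs.le hS
      refine ⟨f, h, ⟨h1, h2⟩, fun _ => ⟨h3, h4⟩, ?_⟩
      rwa [if_pos hS]
    · obtain ⟨p, h1, h2, h3, h4⟩ := hHKP false K v hv n 0 α (vac n) S hα (by omega) vm
      rw [hs] at h1 h2 ⊢
      refine ⟨p, 0, ⟨h1, h2⟩, fun h => absurd h hS, ?_⟩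
      rw [if_neg hS, add_zero, AAD_sq]
      have := AAD_sg_mul (L := α.sum - α.length) (p := p) ⟨h3, h4⟩
      linarith
  choose f h h1 h2 h3 using key
  refine ⟨f, h, h1, h2, ?_⟩
  have hco : (∑ S ∈ ends n (vac n), f S ^ 2 +
      ∑ S ∈ (ends n (vac n)).filter (fun S => flip S = S), h S ^ 2).coeff 1 =
      ∑ S ∈ ends n (vac n), ((f S ^ 2).coeff 1 + (if flip S = S then (h S ^ 2).coeff 1 else 0)) := by
    rw [coeff_add, finsetSum_coeff, finsetSum_coeff, Finset.sum_filter, ← Finset.sum_add_distrib]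
  -- the special state
  have hsp := (hSP false K v hv n 0 α hα (by omega) (by omega)).1
  rw [AAD_col, zero_add, hs] at hsp
  have hf : f (col n 1 (n - 1)) = (-1) ^ (n - α.length) *
      (C ((α.count 1 : ℕ) : ℤ) + C ((α.length - α.count 1 : ℕ) : ℤ) * (1 - X)) := by
    apply hinj
    show eval₂ _ _ _ = eval₂ _ _ _
    have h4 := (h1 (col n 1 (n - 1))).1
    rw [hs] at h4
    rw [← h4]
    refine hsp.trans ?_
    simp only [eval₂_mul, eval₂_pow, eval₂_neg, eval₂_one, eval₂_add, eval₂_C, eval₂_sub, eval₂_X]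
    simp
  have hc : α.count 1 < α.length := by
    rw [List.count_lt_length_iff]
    obtain ⟨a, h4, h5⟩ := ha
    exact ⟨a, h4, by omega⟩
  have hneg : (f (col n 1 (n - 1)) ^ 2).coeff 1 < 0 := by
    rw [hf, mul_pow, ← pow_mul, mul_comm (n - α.length) 2, pow_mul, neg_one_sq, one_pow, one_mul,
      AAD_sq]
    have c0 : (C ((α.count 1 : ℕ) : ℤ) + C ((α.length - α.count 1 : ℕ) : ℤ) * (1 - X) : ℤ[X]).coeff 0 =
        (α.count 1 : ℤ) + ((α.length - α.count 1 : ℕ) : ℤ) := by
      rw [coeff_add, coeff_C_mul, coeff_sub, coeff_C_zero, coeff_one_zero, coeff_X_zero]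
      ring
    have c1 : (C ((α.count 1 : ℕ) : ℤ) + C ((α.length - α.count 1 : ℕ) : ℤ) * (1 - X) : ℤ[X]).coeff 1 =
        - ((α.length - α.count 1 : ℕ) : ℤ) := by
      rw [coeff_add, coeff_C_mul, coeff_sub, coeff_X_one, coeff_C, coeff_one]
      simp
    rw [c0, c1]
    have h5 : (1 : ℤ) ≤ ((α.length - α.count 1 : ℕ) : ℤ) := by
      have : 1 ≤ α.length - α.count 1 := by omega
      exact_mod_cast this
    have h6 : (0 : ℤ) ≤ (α.count 1 : ℤ) := by positivity
    nlinarith
  have hmem : col n 1 (n - 1) ∈ ends n (vac n) := by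
    by_contra h4
    have h5 := (h1 (col n 1 (n - 1))).1
    rw [Pool.Agent.helper31.PC.trP_of_not_mem _ _ _ _ h4, mul_zero] at h5
    have h6 : f (col n 1 (n - 1)) = 0 := by
      apply hinj
      show eval₂ _ _ _ = eval₂ _ _ _
      rw [← h5, eval₂_zero]
    rw [h6] at hneg
    simp at hneg
  rw [hco]
  have := Finset.sum_lt_sum (s := ends n (vac n))
    (f := fun S => (f S ^ 2).coeff 1 + (if flip S = S then (h S ^ 2).coeff 1 else 0))
    (g := fun _ => (0 : ℤ)) (fun S _ => h3 S) ⟨col n 1 (n - 1), hmem, by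
      rw [if_neg (AAD_ne hn), add_zero]
      exact hneg⟩
  simpa using this

end Pool.Agent.helper27.PC
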